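import Pool.Agent.H94.PX4.LT.Bm

/-!
# LT Cr: varieties with good data are of log general type

As `LG/Cr.lean` (`lgt_of_bd`).  `ω = wd (dd ∘ z) ≠ 0` (`LG.wd_ne_of_basis`).  The forms `f_(a,β) ω^(N m₀)`, `f_(a,β) = f₀^N X_a V^β / R`, `|β| = D`, `a ∈ ι`.  At `E`: `v, o` of `exists_bd`, the chart of `Good.chart`: `v (X a) ≥ v (X c) ≥ m v (X c)` (`m ≥ 1`, and `v (X c) ≤ 0` because some `X a = 1`), `v (V^β) ≥ D v (V l)`:
`v f_(a,β) ≥ N v f₀ - (v R - m v (X c) - D v (V l)) ≥ - N m₀ (o ω + 1)`; for `¬ B E`: `≥ N v f₀ ≥ - N m₀ o ω`.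
The quotients: `X a₀ = 1`, `V l₀ ≠ 0`, `β₀ = D e_(l₀)`: `f_(a,β₀) / f_(a₀,β₀) = X a`, `f_(a₀,β) / f_(a₀,β₀) = V l / V l₀` for `β = β₀ - e_(l₀) + e_l` (`D ≥ 1`); `Base.alg`.
-/

set_option autoImplicit false

open MvPolynomial
open Pool.Agent.H23 (RatForm PrimeDivisorOver)
open Pool.Agent.LG (dd wd IV FV)

noncomputable section

namespace Pool.Agent.LT

variable {K : Type} [Field K] [Algebra ℂ K] {ι : Type} {k n m D r p f : ℕ}

private lemma alg_mono {F F' : IntermediateField ℂ K} (h : F ≤ F') (hF : Algebra.IsAlgebraic F K) :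
    Algebra.IsAlgebraic F' K := by
  letI : Algebra F F' := (IntermediateField.inclusion h).toRingHom.toAlgebra
  haveI : IsScalarTower F F' K := IsScalarTower.of_algebraMap_eq fun _ => rfl
  exact Algebra.IsAlgebraic.tower_top (K := F) F'

private lemma iv_one {v : K → ℤ} (h : IV K v) : v 1 = 0 := by
  simpa using h.const 1 one_ne_zero

private lemma iv_pow {v : K → ℤ} (h : IV K v) {a : K} (ha : a ≠ 0) (n : ℕ) :
    v (a ^ n) = n * v a := by
  induction n with
  | zero => simp [iv_one h]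
  | succ n ih =>
    rw [pow_succ, h.mul (pow_ne_zero _ ha) ha, ih]
    push_cast
    ring

private lemma iv_prod {v : K → ℤ} (h : IV K v) {α : Type} (s : Finset α) (a : α → K)
    (ha : ∀ t, a t ≠ 0) : v (∏ t ∈ s, a t) = ∑ t ∈ s, v (a t) := by
  classical
  induction s using Finset.induction_on with
  | empty => simp [iv_one h]
  | insert t s hts ih =>
    rw [Finset.prod_insert hts, Finset.sum_insert hts,
      h.mul (ha t) (Finset.prod_ne_zero_iff.2 fun t _ => ha t), ih]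

private lemma iv_inv {v : K → ℤ} (h : IV K v) {a : K} (ha : a ≠ 0) : v a⁻¹ = -v a := by
  have h1 := h.mul ha (inv_ne_zero ha)
  rw [mul_inv_cancel₀ ha, iv_one h] at h1
  linarith

private lemma iv_div {v : K → ℤ} (h : IV K v) {a b : K} (ha : a ≠ 0) (hb : b ≠ 0) :
    v (a / b) = v a - v b := by
  rw [div_eq_mul_inv, h.mul ha (inv_ne_zero hb), iv_inv h hb]
  ring

theorem core [Algebra.EssFiniteType ℂ K] [Fintype ι] {z : Fin (k + 1) → K} (hz : IsTranscendenceBasis ℂ z) (S : Dt K ι n m D) (hm : 1 ≤ m) (hD : 1 ≤ D) {B : PrimeDivisorOver K (k + 1) → Prop} (h : S.Good B) : H17LG.IsLogGeneralType B := by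
  classical
  obtain ⟨f₀, m₀, N, hf, hm₀, hN, hE⟩ := exists_bd hz h.toBase
  obtain ⟨N', rfl⟩ : ∃ N' : ℕ, N = N' := ⟨N.toNat, by omega⟩
  have hN' : 1 ≤ N' := by exact_mod_cast hN
  obtain ⟨ω, hω'⟩ : ∃ ω : RatForm K (k + 1), ω = wd (fun i => dd (z i)) := ⟨_, rfl⟩
  have hω : ω ≠ 0 := by
    rw [hω']
    exact Pool.Agent.LG.wd_ne_of_basis hz
  rw [← hω'] at hE
  obtain ⟨a₀, ha₀⟩ := h.one
  obtain ⟨l₀, hl₀⟩ := h.V_ne
  have ha₀' : S.X a₀ ≠ 0 := by rw [ha₀]; exact one_ne_zero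
  let T := {p : ι × (Fin D → Fin (m + 1)) // S.X p.1 ≠ 0 ∧ ∀ t, S.V (p.2 t) ≠ 0}
  let t₀ : T := ⟨(a₀, fun _ => l₀), ha₀', fun _ => hl₀⟩
  have hcard : 0 < Fintype.card T := Fintype.card_pos_iff.2 ⟨t₀⟩
  obtain ⟨r, hr⟩ : ∃ r, Fintype.card T = r + 1 := ⟨Fintype.card T - 1, by omega⟩
  let e₀ : Fin (r + 1) ≃ T := (Fintype.equivFinOfCardEq hr).symm
  let e : Fin (r + 1) ≃ T := (Equiv.swap 0 (e₀.symm t₀)).trans e₀
  have he0 : e 0 = t₀ := by simp [e]
  let g : T → K := fun p => f₀ ^ N' * S.X p.1.1 * (∏ t, S.V (p.1.2 t)) / S.R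
  have hprod : ∀ p : T, (∏ t, S.V (p.1.2 t)) ≠ 0 := fun p =>
    Finset.prod_ne_zero_iff.2 fun t _ => p.2.2 t
  have hg : ∀ p, g p ≠ 0 := fun p =>
    div_ne_zero (mul_ne_zero (mul_ne_zero (pow_ne_zero _ hf) p.2.1) (hprod p)) h.R_ne
  have hgt : g t₀ = f₀ ^ N' * S.V l₀ ^ D / S.R := by simp [g, t₀, ha₀]
  refine ⟨N' * m₀, Nat.mul_pos hN' hm₀, ω, hω, r, fun i => g (e i), hg _, ?_, ?_⟩
  · intro i E
    obtain ⟨v, o, hfv, hord, hreg, hch⟩ := hE E
    obtain ⟨c, l, hc, hoff⟩ := h.chart E v hord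
    obtain ⟨hle, hnn⟩ := hch c l hc
    have hiv := hfv.toIV
    obtain ⟨p, hp⟩ : ∃ p : T, e i = p := ⟨_, rfl⟩
    simp only [hp]
    have hvg : v (g p) = N' * v f₀ + v (S.X p.1.1) + (∑ t, v (S.V (p.1.2 t))) - v S.R := by
      change v (f₀ ^ N' * S.X p.1.1 * (∏ t, S.V (p.1.2 t)) / S.R) = _
      rw [iv_div hiv (mul_ne_zero (mul_ne_zero (pow_ne_zero _ hf) p.2.1) (hprod p)) h.R_ne,
        hiv.mul (mul_ne_zero (pow_ne_zero _ hf) p.2.1) (hprod p),
        hiv.mul (pow_ne_zero _ hf) p.2.1, iv_pow hiv hf, iv_prod hiv _ _ p.2.2]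
    have h0 : v (S.X c) ≤ 0 := by
      have := hc.Xle a₀ ha₀'
      rwa [ha₀, iv_one hiv] at this
    have h1 : (m : ℤ) * v (S.X c) ≤ v (S.X p.1.1) := by
      have h2 := hc.Xle _ p.2.1
      have h3 : (1 : ℤ) ≤ m := by exact_mod_cast hm
      nlinarith
    have h2 : (D : ℤ) * v (S.V l) ≤ ∑ t, v (S.V (p.1.2 t)) := by
      have h3 : ∑ _t : Fin D, v (S.V l) ≤ ∑ t, v (S.V (p.1.2 t)) :=
        Finset.sum_le_sum fun t _ => hc.Vle _ (p.2.2 t)
      simpa using h3
    constructor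
    · intro hBE
      have h3 := hoff hBE
      have h4 := hnn h3
      refine (hreg (N' * m₀) _ ω (hg _) hω).1 ?_
      rw [hvg]
      have h5 : 0 ≤ (N' : ℤ) * (v f₀ + m₀ * o ω) := mul_nonneg (by positivity) h4
      push_cast
      nlinarith
    · intro _
      refine (hreg (N' * m₀) _ ω (hg _) hω).2 ?_
      rw [hvg]
      push_cast
      nlinarith
  · refine alg_mono ?_ h.alg
    have hmem : ∀ p : T, g p / g t₀ ∈
        IntermediateField.adjoin ℂ (Set.range fun i => g (e i) / g (e 0)) := by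
      intro p
      refine IntermediateField.subset_adjoin _ _ ⟨e.symm p, ?_⟩
      simp only [Equiv.apply_symm_apply, he0]
    have hfN : f₀ ^ N' ≠ 0 := pow_ne_zero _ hf
    have hR := h.R_ne
    have hX : ∀ a, S.X a ∈ IntermediateField.adjoin ℂ (Set.range fun i => g (e i) / g (e 0)) := by
      intro a
      by_cases ha : S.X a = 0
      · rw [ha]
        exact zero_mem _
      · have h1 := hmem ⟨(a, fun _ => l₀), ha, fun _ => hl₀⟩
        have h2 : g ⟨(a, fun _ => l₀), ha, fun _ => hl₀⟩ / g t₀ = S.X a := by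
          rw [hgt]
          simp only [g, Finset.prod_const, Finset.card_univ, Fintype.card_fin]
          field_simp
        rwa [h2] at h1
    have hV : ∀ l, S.V l / S.V l₀ ∈
        IntermediateField.adjoin ℂ (Set.range fun i => g (e i) / g (e 0)) := by
      intro l
      by_cases hl : S.V l = 0
      · rw [hl, zero_div]
        exact zero_mem _
      · obtain ⟨D', rfl⟩ : ∃ D', D = D' + 1 := ⟨D - 1, by omega⟩
        have hβ : ∀ t : Fin (D' + 1), S.V ((Fin.cons l (fun _ => l₀) : Fin (D' + 1) → Fin (m + 1)) t) ≠ 0 := by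
          intro t
          refine Fin.cases ?_ (fun t => ?_) t
          · simpa using hl
          · simpa using hl₀
        have h1 := hmem ⟨(a₀, (Fin.cons l (fun _ => l₀) : Fin (D' + 1) → Fin (m + 1))), ha₀', hβ⟩
        have h2 : g ⟨(a₀, (Fin.cons l (fun _ => l₀) : Fin (D' + 1) → Fin (m + 1))), ha₀', hβ⟩ / g t₀ =
            S.V l / S.V l₀ := by
          rw [hgt]
          simp only [g, Fin.prod_univ_succ, Fin.cons_zero, Fin.cons_succ, Finset.prod_const,
            Finset.card_univ, Fintype.card_fin, ha₀]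
          field_simp
          ring
        rwa [h2] at h1
    rw [IntermediateField.adjoin_le_iff]
    rintro x (⟨a, rfl⟩ | ⟨l, l', rfl⟩)
    · exact hX a
    · by_cases hl' : S.V l' = 0
      · rw [hl', div_zero]
        exact zero_mem _
      · have h1 := div_mem (hV l) (hV l')
        have h2 : S.V l / S.V l₀ / (S.V l' / S.V l₀) = S.V l / S.V l' := by
          field_simp
        rwa [h2] at h1

end Pool.Agent.LT
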